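import Pool.Agent.Run7.h506.TA.Stm

set_option autoImplicit false

namespace Pool.Agent.Run7.h181.TA

open Pool.Agent.Run7.h506.TA Set Filter Topology
open scoped ContDiff

theorem one_add_pos (p : ℝ) : (0 : ℝ) < 1 + p ^ 2 := by positivity

theorem hasDeriv_sq (p : ℝ) : HasDerivAt (fun p : ℝ => 1 + p ^ 2) (2 * p) p := by
  have h := (hasDerivAt_pow 2 p).const_add (1 : ℝ)
  simpa using h

theorem K_smooth (c : ℝ) : ContDiff ℝ ∞ (K c) := by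
  unfold K
  refine contDiff_const.mul ?_
  refine ContDiff.rpow_const_of_ne (by fun_prop) ?_
  intro x
  exact (one_add_pos x).ne'

theorem K_deriv (c p : ℝ) : HasDerivAt (K c) (K1 c p) p := by
  have h := ((hasDeriv_sq p).rpow_const (p := (1 / 8 : ℝ)) (Or.inl (one_add_pos p).ne')).const_mul c
  have e : c * (2 * p * (1 / 8) * (1 + p ^ 2) ^ ((1 / 8 : ℝ) - 1)) = K1 c p := by
    unfold K1
    have : (1 / 8 : ℝ) - 1 = -(7 / 8) := by norm_num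
    rw [this]
    ring
  rw [e] at h
  exact h

theorem K1_deriv (c p : ℝ) : HasDerivAt (K1 c) (K2 c p) p := by
  have h1 := (hasDeriv_sq p).rpow_const (p := (-(7 / 8) : ℝ)) (Or.inl (one_add_pos p).ne')
  have h2 : HasDerivAt (fun p : ℝ => c / 4 * p) (c / 4) p := by
    simpa using (hasDerivAt_id p).const_mul (c / 4)
  have h := h2.mul h1
  have e : c / 4 * (1 + p ^ 2) ^ (-(7 / 8) : ℝ) +
      c / 4 * p * (2 * p * (-(7 / 8)) * (1 + p ^ 2) ^ ((-(7 / 8) : ℝ) - 1)) = K2 c p := by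
    unfold K2
    have e1 : (-(7 / 8) : ℝ) - 1 = -(15 / 8) := by norm_num
    have e2 : (1 + p ^ 2) ^ (-(7 / 8) : ℝ) = (1 + p ^ 2) ^ (-(15 / 8) : ℝ) * (1 + p ^ 2) := by
      have : (-(7 / 8) : ℝ) = -(15 / 8) + 1 := by norm_num
      rw [this, Real.rpow_add_one (one_add_pos p).ne']
    rw [e1, e2]
    ring
  rw [e] at h
  exact h

theorem abs_le_pow (p : ℝ) : |p| ≤ (1 + p ^ 2) ^ (7 / 8 : ℝ) := by
  have h1 : |p| = (p ^ 2) ^ (1 / 2 : ℝ) := by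
    rw [← Real.sqrt_eq_rpow, Real.sqrt_sq_eq_abs]
  rw [h1]
  calc (p ^ 2) ^ (1 / 2 : ℝ) ≤ (1 + p ^ 2) ^ (1 / 2 : ℝ) :=
        Real.rpow_le_rpow (sq_nonneg p) (by linarith) (by norm_num)
    _ ≤ (1 + p ^ 2) ^ (7 / 8 : ℝ) :=
        Real.rpow_le_rpow_of_exponent_le (by nlinarith [sq_nonneg p]) (by norm_num)

theorem K1_abs (c p : ℝ) (hc : 0 < c) : |K1 c p| ≤ c := by
  have h0 : (0 : ℝ) < (1 + p ^ 2) ^ (-(7 / 8) : ℝ) := Real.rpow_pos_of_pos (one_add_pos p) _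
  unfold K1
  rw [abs_mul, abs_mul, abs_of_pos h0, abs_of_pos (by positivity : (0 : ℝ) < c / 4)]
  have h1 : |p| * (1 + p ^ 2) ^ (-(7 / 8) : ℝ) ≤ 1 := by
    have := mul_le_mul_of_nonneg_right (abs_le_pow p) h0.le
    rw [← Real.rpow_add (one_add_pos p)] at this
    simpa using this
  have h2 : 0 ≤ |p| * (1 + p ^ 2) ^ (-(7 / 8) : ℝ) := by positivity
  calc c / 4 * |p| * (1 + p ^ 2) ^ (-(7 / 8) : ℝ)
      = c / 4 * (|p| * (1 + p ^ 2) ^ (-(7 / 8) : ℝ)) := by ring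
    _ ≤ c / 4 * 1 := mul_le_mul_of_nonneg_left h1 (by positivity)
    _ ≤ c := by linarith

theorem K1_nonneg (c p : ℝ) (hc : 0 < c) (hp : 0 ≤ p) : 0 ≤ K1 c p := by
  have h0 : (0 : ℝ) < (1 + p ^ 2) ^ (-(7 / 8) : ℝ) := Real.rpow_pos_of_pos (one_add_pos p) _
  unfold K1
  positivity

theorem K1_le (c p : ℝ) (hc : 0 < c) (hp : 1 ≤ p) : K1 c p ≤ c * p ^ (-(3 / 4) : ℝ) := by
  have hp0 : 0 < p := by linarith
  have h1 : (1 + p ^ 2) ^ (-(7 / 8) : ℝ) ≤ (p ^ 2) ^ (-(7 / 8) : ℝ) :=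
    Real.rpow_le_rpow_of_nonpos (by positivity) (by linarith) (by norm_num)
  have h2 : (p ^ 2) ^ (-(7 / 8) : ℝ) = p ^ (-(7 / 4) : ℝ) := by
    rw [← Real.rpow_natCast, ← Real.rpow_mul hp0.le]
    norm_num
  have h3 : p * p ^ (-(7 / 4) : ℝ) = p ^ (-(3 / 4) : ℝ) := by
    have : (-(3 / 4) : ℝ) = -(7 / 4) + 1 := by norm_num
    rw [this, Real.rpow_add_one hp0.ne']
    ring
  have h4 : 0 < p ^ (-(3 / 4) : ℝ) := Real.rpow_pos_of_pos hp0 _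
  unfold K1
  calc c / 4 * p * (1 + p ^ 2) ^ (-(7 / 8) : ℝ)
      ≤ c / 4 * p * (p ^ 2) ^ (-(7 / 8) : ℝ) := mul_le_mul_of_nonneg_left h1 (by positivity)
    _ = c / 4 * (p * p ^ (-(7 / 4) : ℝ)) := by rw [h2]; ring
    _ = c / 4 * p ^ (-(3 / 4) : ℝ) := by rw [h3]
    _ ≤ c * p ^ (-(3 / 4) : ℝ) := mul_le_mul_of_nonneg_right (by linarith) h4.le

theorem le_K (c p : ℝ) (hc : 0 < c) (hp : 0 < p) : c * p ^ (1 / 4 : ℝ) ≤ K c p := by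
  unfold K
  refine mul_le_mul_of_nonneg_left ?_ hc.le
  have h2 : (p ^ 2) ^ (1 / 8 : ℝ) = p ^ (1 / 4 : ℝ) := by
    rw [← Real.rpow_natCast, ← Real.rpow_mul hp.le]
    norm_num
  rw [← h2]
  exact Real.rpow_le_rpow (sq_nonneg p) (by linarith) (by norm_num)

theorem c_le_K (c p : ℝ) (hc : 0 < c) : c ≤ K c p := by
  unfold K
  have : (1 : ℝ) ≤ (1 + p ^ 2) ^ (1 / 8 : ℝ) :=
    Real.one_le_rpow (by nlinarith [sq_nonneg p]) (by norm_num)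
  nlinarith

theorem K_le (c p : ℝ) (hc : 0 < c) : K c p ≤ c * (1 + |p|) := by
  unfold K
  refine mul_le_mul_of_nonneg_left ?_ hc.le
  have h1 : (1 + p ^ 2) ^ (1 / 8 : ℝ) ≤ (1 + p ^ 2) ^ (1 / 2 : ℝ) :=
    Real.rpow_le_rpow_of_exponent_le (by nlinarith [sq_nonneg p]) (by norm_num)
  refine h1.trans ?_
  rw [← Real.sqrt_eq_rpow]
  rw [Real.sqrt_le_left (by positivity)]
  have := abs_nonneg p
  have h2 : |p| ^ 2 = p ^ 2 := sq_abs p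
  nlinarith

theorem K2_le (c p : ℝ) (hc : 0 < c) : K2 c p ≤ c / 4 := by
  unfold K2
  have h0 : (0 : ℝ) < (1 + p ^ 2) ^ (-(15 / 8) : ℝ) := Real.rpow_pos_of_pos (one_add_pos p) _
  have h1 : (1 + p ^ 2) ^ (-(15 / 8) : ℝ) ≤ 1 :=
    Real.rpow_le_one_of_one_le_of_nonpos (by nlinarith [sq_nonneg p]) (by norm_num)
  have h2 : (1 + p ^ 2) ^ (-(15 / 8) : ℝ) * (1 - 3 / 4 * p ^ 2) ≤ 1 := by
    nlinarith [sq_nonneg p, mul_nonneg h0.le (sq_nonneg p)]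
  calc c / 4 * (1 + p ^ 2) ^ (-(15 / 8) : ℝ) * (1 - 3 / 4 * p ^ 2)
      = c / 4 * ((1 + p ^ 2) ^ (-(15 / 8) : ℝ) * (1 - 3 / 4 * p ^ 2)) := by ring
    _ ≤ c / 4 * 1 := mul_le_mul_of_nonneg_left h2 (by positivity)
    _ = c / 4 := by ring

theorem K2_nonpos (c p : ℝ) (hc : 0 < c) (hp : 2 ≤ |p|) : K2 c p ≤ 0 := by
  unfold K2
  have h0 : (0 : ℝ) < (1 + p ^ 2) ^ (-(15 / 8) : ℝ) := Real.rpow_pos_of_pos (one_add_pos p) _
  have h2 : |p| ^ 2 = p ^ 2 := sq_abs p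
  have h3 : 1 - 3 / 4 * p ^ 2 ≤ 0 := by nlinarith
  exact mul_nonpos_of_nonneg_of_nonpos (by positivity) h3

theorem t_KF : S_KF := fun c hc => ⟨K_smooth c, fun p =>
  ⟨K_deriv c p, K1_deriv c p, K1_abs c p hc, K1_nonneg c p hc, K1_le c p hc, le_K c p hc,
    c_le_K c p hc, K_le c p hc, K2_le c p hc, K2_nonpos c p hc⟩⟩

end Pool.Agent.Run7.h181.TA
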